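import Pool.Agent.H71.HCI.TargetsU

/-!
# Types of ultrafilters: basic facts
-/

set_option autoImplicit false

namespace Pool.Agent.H71.HCI

open Set Pool.Agent.H75.HCI Pool.Agent.H41.HI Pool.Agent.H41.RLH Pool.Agent.H16.FK

variable {C : Type} {M : List ℕ → C} {I J : Type}

/-- An ultrafilter concentrates a function with finite range on one value. -/
lemma exists_const {A B : Type} (V : Ultrafilter A) (f : A → B) (F : Set B) (hF : F.Finite)
    (hf : ∀ᶠ x in (V : Filter A), f x ∈ F) : ∃ y ∈ F, ∀ᶠ x in (V : Filter A), f x = y := by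
  have h1 : ⋃ y ∈ F, {x | f x = y} ∈ (V : Filter A) := by
    filter_upwards [hf] with x hx
    simp only [mem_iUnion, mem_ofPred_eq, exists_prop]
    exact ⟨f x, hx, rfl⟩
  obtain ⟨y, hy, h2⟩ := (Ultrafilter.finite_biUnion_mem_iff hF).1 h1
  exact ⟨y, hy, h2⟩

/-- The type of an ultrafilter gives the almost sure labels. -/
lemma typ_spec (hM : FinL M) (V : Ultrafilter (I → ℕ)) (l : List (ℕ ⊕ I)) :
    ∀ᶠ x in (V : Filter (I → ℕ)), M (l.map (Sum.elim id x)) = typ M V l := by
  have h : ∃ y, ∀ᶠ x in (V : Filter (I → ℕ)), M (l.map (Sum.elim id x)) = y := by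
    obtain ⟨y, -, hy⟩ := exists_const V (fun x => M (l.map (Sum.elim id x))) _ (hM l.length)
      (Filter.Eventually.of_forall fun x => ⟨_, by rw [List.length_map], rfl⟩)
    exact ⟨y, hy⟩
  unfold typ
  rw [dif_pos h]
  exact h.choose_spec

lemma typ_eq {V : Ultrafilter (I → ℕ)} {l : List (ℕ ⊕ I)} {y : C}
    (h : ∀ᶠ x in (V : Filter (I → ℕ)), M (l.map (Sum.elim id x)) = y) : typ M V l = y := by
  have h' : ∃ y, ∀ᶠ x in (V : Filter (I → ℕ)), M (l.map (Sum.elim id x)) = y := ⟨y, h⟩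
  unfold typ
  rw [dif_pos h']
  obtain ⟨x, hx1, hx2⟩ := (h'.choose_spec.and h).exists
  rw [← hx1, hx2]

lemma typ_pure (hM : FinL M) (x : I → ℕ) (l : List (ℕ ⊕ I)) :
    typ M (pure x) l = M (l.map (Sum.elim id x)) :=
  typ_eq (by
    rw [Ultrafilter.coe_pure]
    exact Filter.eventually_pure.2 rfl)

lemma typ_re (hM : FinL M) (V : Ultrafilter (I → ℕ)) (f : J → I) (l : List (ℕ ⊕ J)) :
    typ M (re V f) l = typ M V (l.map (Sum.map id f)) := by
  refine typ_eq ?_
  unfold re
  rw [Ultrafilter.coe_map, Filter.eventually_map]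
  filter_upwards [typ_spec hM V (l.map (Sum.map id f))] with x hx
  rw [← hx, List.map_map]
  congr 1
  exact List.map_congr_left fun a _ => by rcases a with a | a <;> rfl

/-- substitution of a tuple for the first factor -/
def sb (x : I → ℕ) : ℕ ⊕ (I ⊕ J) → ℕ ⊕ J
  | .inl n => .inl n
  | .inr (.inl i) => .inl (x i)
  | .inr (.inr j) => .inr j

lemma mem_bind {A B : Type} {V : Ultrafilter A} {F : A → Ultrafilter B} {p : B → Prop} :
    (∀ᶠ y in (V.bind F : Filter B), p y) ↔
      ∀ᶠ x in (V : Filter A), ∀ᶠ y in (F x : Filter B), p y := Iff.rfl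

lemma ev_prU {V : Ultrafilter (I → ℕ)} {U : Ultrafilter (J → ℕ)} {p : (I ⊕ J → ℕ) → Prop} :
    (∀ᶠ z in (prU V U : Filter (I ⊕ J → ℕ)), p z) ↔
      ∀ᶠ x in (V : Filter (I → ℕ)), ∀ᶠ y in (U : Filter (J → ℕ)), p (Sum.elim x y) := by
  unfold prU
  rw [mem_bind]
  rfl

lemma ev_limU {UU : Ultrafilter ℕ} {V : ℕ → Ultrafilter (I → ℕ)} {p : (I → ℕ) → Prop} :
    (∀ᶠ x in (limU UU V : Filter (I → ℕ)), p x) ↔
      ∀ᶠ j in (UU : Filter ℕ), ∀ᶠ x in (V j : Filter (I → ℕ)), p x := Iff.rfl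

lemma ev_re {V : Ultrafilter (I → ℕ)} {f : J → I} {p : (J → ℕ) → Prop} :
    (∀ᶠ y in (re V f : Filter (J → ℕ)), p y) ↔ ∀ᶠ x in (V : Filter (I → ℕ)), p (x ∘ f) := Iff.rfl

lemma typ_prU (hM : FinL M) (V : Ultrafilter (I → ℕ)) (U : Ultrafilter (J → ℕ))
    (l : List (ℕ ⊕ (I ⊕ J))) :
    ∀ᶠ x in (V : Filter (I → ℕ)), typ M U (l.map (sb x)) = typ M (prU V U) l := by
  have h := ev_prU.1 (typ_spec hM (prU V U) l)
  filter_upwards [h] with x hx
  refine typ_eq ?_
  filter_upwards [hx] with y hy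
  rw [← hy, List.map_map]
  congr 1
  exact List.map_congr_left fun a _ => by rcases a with a | a | a <;> rfl

lemma typ_prU_eq (hM : FinL M) {V : Ultrafilter (I → ℕ)} {U : Ultrafilter (J → ℕ)}
    {l : List (ℕ ⊕ (I ⊕ J))} {y : C}
    (h : ∀ᶠ x in (V : Filter (I → ℕ)), typ M U (l.map (sb x)) = y) : typ M (prU V U) l = y := by
  obtain ⟨x, hx1, hx2⟩ := ((typ_prU hM V U l).and h).exists
  rw [← hx1, hx2]

/-- an equivalent ultrafilter may be replaced in the last place -/
lemma typ_prU_right (hM : FinL M) (V : Ultrafilter (I → ℕ)) {U U' : Ultrafilter (J → ℕ)}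
    (h : typ M U = typ M U') : typ M (prU V U) = typ M (prU V U') := by
  funext l
  refine typ_prU_eq hM ?_
  filter_upwards [typ_prU hM V U' l] with x hx
  rw [h, hx]

lemma typ_re_congr (hM : FinL M) {V V' : Ultrafilter (I → ℕ)} (h : typ M V = typ M V')
    (f : J → I) : typ M (re V f) = typ M (re V' f) := by
  funext l
  rw [typ_re hM, typ_re hM, h]

/-- the first factor may be replaced if both are tame -/
lemma typ_prU_left (hM : FinL M) [Finite J] {V V' : Ultrafilter (I → ℕ)}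
    {U : Ultrafilter (J → ℕ)} (hU : NP U) (hV : Tame M V) (hV' : Tame M V')
    (h : typ M V = typ M V') : typ M (prU V U) = typ M (prU V' U) := by
  rw [hV J U hU, hV' J U hU]
  exact typ_re_congr hM (typ_prU_right hM U h) _

lemma typ_limU (hM : FinL M) (UU : Ultrafilter ℕ) (V : ℕ → Ultrafilter (I → ℕ))
    (l : List (ℕ ⊕ I)) : ∀ᶠ j in (UU : Filter ℕ), typ M (V j) l = typ M (limU UU V) l := by
  have h := ev_limU.1 (typ_spec hM (limU UU V) l)
  filter_upwards [h] with j hj
  exact typ_eq hj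

lemma limU_const (UU : Ultrafilter ℕ) (V : Ultrafilter (I → ℕ)) : limU UU (fun _ => V) = V := by
  refine Ultrafilter.coe_injective (Filter.ext fun s => ?_)
  have h : (∀ᶠ x in (limU UU (fun _ => V) : Filter (I → ℕ)), x ∈ s) ↔
      ∀ᶠ x in (V : Filter (I → ℕ)), x ∈ s := by
    rw [ev_limU]
    exact Filter.eventually_const
  exact h

/-- long lists give no information -/
lemma typ_long {r : ℕ} (har : Ar r M) {l : List (ℕ ⊕ I)} (hl : r < l.length)
    (V V' : Ultrafilter (I → ℕ)) : typ M V l = typ M V' l := by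
  have h : ∀ V : Ultrafilter (I → ℕ), typ M V l = M (l.map fun _ => 0) := fun V =>
    typ_eq (Filter.Eventually.of_forall fun x => har _ _ (by rwa [List.length_map])
      (by rwa [List.length_map]))
  rw [h V, h V']

lemma re_re (V : Ultrafilter (I → ℕ)) {K : Type} (f : J → I) (g : K → J) :
    re (re V f) g = re V (f ∘ g) := by
  unfold re
  rw [Ultrafilter.map_map]
  rfl

lemma np_re {V : Ultrafilter (I → ℕ)} (hV : NP V) (f : J → I) : NP (re V f) := by
  intro i a
  rw [ev_re]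
  exact hV (f i) a

lemma np_prU {V : Ultrafilter (I → ℕ)} {U : Ultrafilter (J → ℕ)} (hV : NP V) (hU : NP U) :
    NP (prU V U) := by
  intro i a
  rw [ev_prU]
  rcases i with i | j
  · filter_upwards [hV i a] with x hx
    exact Filter.Eventually.of_forall fun y => hx
  · exact Filter.Eventually.of_forall fun x => hU j a

lemma np_limU {UU : Ultrafilter ℕ} {V : ℕ → Ultrafilter (I → ℕ)} (hV : ∀ j, NP (V j)) :
    NP (limU UU V) := by
  intro i a
  rw [ev_limU]
  exact Filter.Eventually.of_forall fun j => hV j i a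

end Pool.Agent.H71.HCI
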