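import Pool.Agent.H16.FK.Defs

/-!
# Targets at the level of ultrafilters, and the end of the induction
-/

set_option autoImplicit false

namespace Pool.Agent.H71.HCI

open Set Pool.Agent.H75.HCI Pool.Agent.H41.HI Pool.Agent.H41.RLH Pool.Agent.H16.FK

section Defs

variable {C : Type}

/-- The powers of an ultrafilter: `n` tuples, chosen one after the other. -/
noncomputable def pw {k : ℕ} (V : Ultrafilter (Fin k → ℕ)) :
    (n : ℕ) → Ultrafilter (Fin n → Fin k → ℕ)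
  | 0 => pure fun i => i.elim0
  | n + 1 => (pw V n).bind fun xs => V.map fun x => Fin.snoc (α := fun _ => Fin k → ℕ) xs x

/-- The list of the points of a sequence of tuples. -/
def fl {n k : ℕ} (xs : Fin n → Fin k → ℕ) : List ℕ :=
  (List.ofFn fun i => List.ofFn (xs i)).flatten

/-- Almost all sequences of `n` tuples are symmetric over each finite list. -/
def SymN (M : List ℕ → C) {k : ℕ} (V : Ultrafilter (Fin k → ℕ)) (n : ℕ) : Prop :=
  ∀ (c : List ℕ) (σ : Equiv.Perm (Fin n)),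
    ∀ᶠ xs in (pw V n : Filter (Fin n → Fin k → ℕ)), ft M (c ++ fl (xs ∘ σ)) = ft M (c ++ fl xs)

/-- `V` is symmetric. -/
def Symm (M : List ℕ → C) {k : ℕ} (V : Ultrafilter (Fin k → ℕ)) : Prop := ∀ n, SymN M V n

/-- `V` is weakly split: it has the type of a product of two of its proper parts. -/
def WSplit (M : List ℕ → C) {k : ℕ} (V : Ultrafilter (Fin k → ℕ)) : Prop :=
  ∃ (a b : ℕ) (e : Fin a ⊕ Fin b ≃ Fin k), 0 < a ∧ 0 < b ∧
    typ M V = typ M (re (prU (re V (e ∘ Sum.inl)) (re V (e ∘ Sum.inr))) e.symm)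

/-- The proper parts of the ultrafilters `V j` are tame and almost all of them have the same type. -/
structure PP (M : List ℕ → C) {k : ℕ} (UU : Ultrafilter ℕ) (V : ℕ → Ultrafilter (Fin k → ℕ)) :
    Prop where
  np : ∀ j, NP (V j)
  ij : ∀ j, Ij (V j)
  nu : ∀ i, ∀ᶠ j in (UU : Filter ℕ), j ≠ i
  tame : ∀ (j m : ℕ) (f : Fin m → Fin k), Function.Injective f → m < k → Tame M (re (V j) f)
  same : ∀ (m : ℕ) (f : Fin m → Fin k), Function.Injective f → m < k →
    ∃ τ, ∀ᶠ j in (UU : Filter ℕ), typ M (re (V j) f) = τ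

end Defs

/-- U1: Theorem A* for ultrafilters: if the limit is weakly split, then almost all members of the
sequence are tame and weakly split. -/
def T_UAST : Prop := ∀ (r : ℕ) (C : Type) (M : List ℕ → C), Ar r M → FinL M →
  SmallE M (id : ℕ → ℕ) (univ : Set ℕ) → ∀ (k : ℕ), 0 < k → ∀ (UU : Ultrafilter ℕ)
  (V : ℕ → Ultrafilter (Fin k → ℕ)), PP M UU V → WSplit M (limU UU V) →
  ∀ᶠ j in (UU : Filter ℕ), Tame M (V j) ∧ WSplit M (V j)

/-- U2: Theorem C for ultrafilters: if the limit is not weakly split and symmetric, then the members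
are generic over the hubs. -/
def T_UTHC : Prop := ∀ (r : ℕ) (C : Type) (M : List ℕ → C), Ar r M → FinL M →
  SmallE M (id : ℕ → ℕ) (univ : Set ℕ) → ∀ (k : ℕ), 0 < k → ∀ (UU : Ultrafilter ℕ)
  (V : ℕ → Ultrafilter (Fin k → ℕ)), PP M UU V → ¬ WSplit M (limU UU V) →
  Symm M (limU UU V) → ∀ (J : Type) [Finite J] (U : ℕ → Ultrafilter (J → ℕ)), (∀ j, NP (U j)) →
  ∀ (m : ℕ) (c : ℕ → Fin m → ℕ) (l : List ((ℕ ⊕ Fin m) ⊕ (Fin k ⊕ J))),
  ∀ᶠ j in (UU : Filter ℕ),
    typ M (prU (V j) (U j)) (l.map (Sum.map (Sum.elim id (c j)) id)) =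
      typ M (re (prU (U j) (limU UU V)) Sum.swap) (l.map (Sum.map (Sum.elim id (c j)) id))

/-- U3: limits of symmetric ultrafilters are symmetric if they are not weakly split. -/
def T_USYM : Prop := ∀ (r : ℕ) (C : Type) (M : List ℕ → C), Ar r M → FinL M →
  SmallE M (id : ℕ → ℕ) (univ : Set ℕ) → ∀ (k : ℕ), 0 < k → ∀ (UU : Ultrafilter ℕ)
  (V : ℕ → Ultrafilter (Fin k → ℕ)), PP M UU V → ¬ WSplit M (limU UU V) →
  (∀ j, Symm M (V j)) → Symm M (limU UU V)

/-- S: the symmetry theorem 4.2. -/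
def T_SYMQ : Prop := ∀ (r : ℕ) (C : Type) (M : List ℕ → C), Ar r M → FinL M →
  SmallE M (id : ℕ → ℕ) (univ : Set ℕ) → ∀ (N : Subgroup (Equiv.Perm ℕ)) (H : HSys M N) (k : ℕ), 0 < k →
  (∀ k' < k, QQ H k') → ∀ V ∈ FKU H (Fin k), Symm M V

/-- Q: tame and finite for all `k`. -/
def T_QALL : Prop := ∀ (r : ℕ) (C : Type) (M : List ℕ → C), Ar r M → FinL M →
  SmallE M (id : ℕ → ℕ) (univ : Set ℕ) → ∀ (N : Subgroup (Equiv.Perm ℕ)) (H : HSys M N) (k : ℕ),
  QQ H k

/-- Section 5. -/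
def T_S5 : Prop := ∀ (r : ℕ) (C : Type) (M : List ℕ → C), Ar r M → FinL M →
  SmallE M (id : ℕ → ℕ) (univ : Set ℕ) → ∀ H : HSys M (LFin M), (∀ k, QQ H k) → False

/-- the assembly of the local theorem -/
theorem star_of (hQ : T_QALL) (h5 : T_S5) (r : ℕ) : T_STAR r := by
  intro C M har hs
  refine ⟨fun H => ?_⟩
  have hf : FinL M := by
    intro n
    refine (fin_labels hs n).subset ?_
    rintro y ⟨l, h1, h2⟩
    exact ⟨l, h1, fun x _ => mem_univ x, h2⟩
  exact h5 r C M har hf hs H fun k => hQ r C M har hf hs (LFin M) H k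

end Pool.Agent.H71.HCI
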