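import Pool.Agent.H71.HCI.QAll

/-!
# Tame and finite for all `k`: the induction
-/

set_option autoImplicit false

namespace Pool.Agent.H71.HCI

open Set Pool.Agent.H75.HCI Pool.Agent.H41.HI Pool.Agent.H41.RLH Pool.Agent.H16.FK

variable {C : Type} {M : List ℕ → C} {N : Subgroup (Equiv.Perm ℕ)}

/-- a nonprincipal ultrafilter on the numbers -/
noncomputable def UU0 : Ultrafilter ℕ := Filter.hyperfilter ℕ

lemma uu0_nu (i : ℕ) : ∀ᶠ j in (UU0 : Filter ℕ), j ≠ i := by
  have h : (UU0 : Filter ℕ) ≤ Filter.cofinite := Filter.hyperfilter_le_cofinite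
  refine h ?_
  rw [Filter.mem_cofinite]
  refine (finite_singleton i).subset fun j hj => ?_
  have : ¬ j ≠ i := hj
  exact not_not.1 this

lemma uu0_cof {s : Set ℕ} (hs : s.Finite) : ∀ᶠ j in (UU0 : Filter ℕ), j ∉ s := by
  have h : (UU0 : Filter ℕ) ≤ Filter.cofinite := Filter.hyperfilter_le_cofinite
  refine h ?_
  rw [Filter.mem_cofinite]
  refine hs.subset fun j hj => ?_
  have : ¬ j ∉ s := hj
  exact not_not.1 this

/-- the hypotheses on the rows for sequences of free ultrafilters -/
lemma pp_of {H : HSys M N} {k : ℕ} (hQ : ∀ k' < k, QQ H k') {V : ℕ → Ultrafilter (Fin k → ℕ)}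
    (hV : ∀ j, V j ∈ FKU H (Fin k)) : PP M UU0 V where
  np := fun j => fku_np (hV j)
  ij := fun j => fku_ij (hV j)
  nu := uu0_nu
  tame := fun j m f hf hm => (hQ m hm).1 _ (fku_re (hV j) hf)
  same := fun m f hf hm => by
    obtain ⟨y, -, hy⟩ := exists_const UU0 (fun j => typ M (re (V j) f)) _ (hQ m hm).2
      (Filter.Eventually.of_forall fun j => ⟨_, fku_re (hV j) hf, rfl⟩)
    exact ⟨y, hy⟩

/-- 4.3: all free ultrafilters are tame -/
theorem tame_step (hA : T_UAST) (hC : T_UTHC) (hS : T_SYMQ) {r : ℕ} (har : Ar r M)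
    (hM : FinL M) (hsm : SmallE M (id : ℕ → ℕ) (univ : Set ℕ)) (H : HSys M N) {k : ℕ}
    (hk : 0 < k) (hQ : ∀ k' < k, QQ H k') : ∀ V ∈ FKU H (Fin k), Tame M V := by
  intro V hV
  have hpp : PP M UU0 (fun _ => V) := pp_of hQ fun _ => hV
  by_cases hw : WSplit M V
  · have h := hA r C M har hM hsm k hk UU0 (fun _ => V) hpp (by rwa [limU_const])
    exact (h.exists).choose_spec.1
  · intro J _ U hU
    funext l
    have h := hC r C M har hM hsm k hk UU0 (fun _ => V) hpp (by rwa [limU_const])
      (by rw [limU_const]; exact hS r C M har hM hsm N H k hk hQ V hV) J (fun _ => U)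
      (fun _ => hU) 0 (fun _ i => i.elim0) (l.map (Sum.map Sum.inl id))
    obtain ⟨j, hj⟩ := h.exists
    rw [limU_const] at hj
    have e : (l.map (Sum.map Sum.inl id : ℕ ⊕ (Fin k ⊕ J) → (ℕ ⊕ Fin 0) ⊕ (Fin k ⊕ J))).map
        (Sum.map (Sum.elim id fun i : Fin 0 => i.elim0) id) = l := by
      rw [List.map_map]
      conv_rhs => rw [← List.map_id l]
      exact List.map_congr_left fun a _ => by rcases a with a | a <;> rfl
    rw [e] at hj
    exact hj

/-- a short list as a pattern of places and a tuple of points -/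
lemma exists_pat {I : Type} (r : ℕ) (l : List (ℕ ⊕ I)) (hl : l.length ≤ r) :
    ∃ (c : Fin r → ℕ) (p : List (Fin r ⊕ I)), p.length = l.length ∧
      p.map (Sum.map c id) = l := by
  induction l generalizing r with
  | nil => exact ⟨fun _ => 0, [], rfl, rfl⟩
  | cons x l ih =>
    rw [List.length_cons] at hl
    obtain ⟨r, rfl⟩ : ∃ r', r = r' + 1 := ⟨r - 1, by omega⟩
    obtain ⟨c, p, h1, h2⟩ := ih r (by omega)
    rcases x with n | i
    · refine ⟨Fin.cons n c, .inl 0 :: p.map (Sum.map Fin.succ id), by simp [h1], ?_⟩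
      rw [List.map_cons, List.map_map]
      congr 1
      rw [← h2]
      exact List.map_congr_left fun a _ => by rcases a with a | a <;> simp
    · refine ⟨Fin.cons 0 c, .inr i :: p.map (Sum.map Fin.succ id), by simp [h1], ?_⟩
      rw [List.map_cons, List.map_map]
      congr 1
      rw [← h2]
      exact List.map_congr_left fun a _ => by rcases a with a | a <;> simp

/-- 4.4: finitely many types -/
theorem fin_step (hA : T_UAST) (hC : T_UTHC) (hU : T_USYM) (hS : T_SYMQ) {r : ℕ} (har : Ar r M)
    (hM : FinL M) (hsm : SmallE M (id : ℕ → ℕ) (univ : Set ℕ)) (H : HSys M N) {k : ℕ}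
    (hk : 0 < k) (hQ : ∀ k' < k, QQ H k') : {τ | ∃ V ∈ FKU H (Fin k), typ M V = τ}.Finite := by
  classical
  by_contra hcon
  have hinf : {τ | ∃ V ∈ FKU H (Fin k), typ M V = τ}.Infinite := hcon
  let em := hinf.natEmbedding
  choose V hV hVt using fun n => (em n).2
  have hinj : ∀ n m, typ M (V n) = typ M (V m) → n = m := by
    intro n m h
    rw [hVt, hVt] at h
    exact em.injective (Subtype.ext h)
  have hpp : PP M UU0 V := pp_of hQ hV
  -- values in a finite set
  have hno : ∀ F : Set (List (ℕ ⊕ Fin k) → C), F.Finite →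
      ¬ ∀ᶠ j in (UU0 : Filter ℕ), typ M (V j) ∈ F := by
    intro F hF h
    have h1 : {j | typ M (V j) ∈ F}.Finite :=
      hF.preimage fun a _ b _ hab => hinj a b hab
    obtain ⟨j, hj1, hj2⟩ := (h.and (uu0_cof h1)).exists
    exact hj2 hj1
  by_cases hw : WSplit M (limU UU0 V)
  · have h := hA r C M har hM hsm k hk UU0 V hpp hw
    have hfin := wsplit_fin hM (FKU H (Fin k)) (fun V hV => fku_np hV)
      (fun V hV m f hf hm => (hQ m hm).1 _ (fku_re hV hf))
      (fun m f hf hm => (hQ m hm).2.subset (by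
        rintro _ ⟨V, hV, rfl⟩
        exact ⟨_, fku_re hV hf, rfl⟩))
    refine hno _ hfin ?_
    filter_upwards [h] with j hj
    exact ⟨V j, hV j, hj.2, rfl⟩
  · have hsy : ∀ j, Symm M (V j) := fun j => hS r C M har hM hsm N H k hk hQ _ (hV j)
    have hsl := hU r C M har hM hsm k hk UU0 V hpp hw hsy
    -- witnesses
    have hwit : ∀ j, ∃ (c : Fin r → ℕ) (p : List (Fin r ⊕ Fin k)), p.length ≤ r ∧
        (typ M (V j) ≠ typ M (limU UU0 V) → typ M (V j) (p.map (Sum.map c id)) ≠
          typ M (limU UU0 V) (p.map (Sum.map c id))) := by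
      intro j
      by_cases hj : typ M (V j) = typ M (limU UU0 V)
      · exact ⟨fun _ => 0, [], Nat.zero_le _, fun h => absurd hj h⟩
      · obtain ⟨l, hl⟩ := Function.ne_iff.1 hj
        have hlen : l.length ≤ r := by
          by_contra h
          exact hl (typ_long har (by omega) _ _)
        obtain ⟨c, p, h1, h2⟩ := exists_pat r l hlen
        exact ⟨c, p, by omega, fun _ => by rw [h2]; exact hl⟩
    choose c p hp1 hp2 using hwit
    obtain ⟨p0, -, hp0⟩ := exists_const UU0 p _ (List.finite_length_le (Fin r ⊕ Fin k) r)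
      (Filter.Eventually.of_forall hp1)
    have h := hC r C M har hM hsm k hk UU0 V hpp hw hsl (Fin 0)
      (fun _ => pure fun i => i.elim0) (fun j i => i.elim0) r c
      (p0.map (Sum.map Sum.inr Sum.inl))
    have h1 : ∀ᶠ j in (UU0 : Filter ℕ), typ M (V j) ≠ typ M (limU UU0 V) := by
      have h2 : {j | typ M (V j) = typ M (limU UU0 V)}.Finite := by
        refine Set.Subsingleton.finite fun a ha b hb => hinj a b ?_
        have ha' : typ M (V a) = typ M (limU UU0 V) := ha
        have hb' : typ M (V b) = typ M (limU UU0 V) := hb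
        rw [ha', hb']
      filter_upwards [uu0_cof h2] with j hj
      exact hj
    obtain ⟨j, ⟨hj1, hj2⟩, hj3⟩ := ((hp0.and h).and h1).exists
    refine hp2 j hj3 ?_
    rw [hj1]
    have key : ∀ (W : Ultrafilter (Fin k → ℕ)) (l : List (ℕ ⊕ Fin k)),
        typ M (prU W (pure fun i : Fin 0 => i.elim0)) (l.map (Sum.map id Sum.inl)) =
          typ M W l := by
      intro W l
      refine typ_prU_eq hM ?_
      filter_upwards [typ_spec hM W l] with x hx
      rw [typ_pure hM, ← hx, List.map_map, List.map_map]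
      congr 1
      exact List.map_congr_left fun a _ => by rcases a with a | a <;> rfl
    have key2 : ∀ (W : Ultrafilter (Fin k → ℕ)) (l : List (ℕ ⊕ Fin k)),
        typ M (re (prU (pure fun i : Fin 0 => i.elim0) W) Sum.swap) (l.map (Sum.map id Sum.inl)) =
          typ M W l := by
      intro W l
      rw [typ_re hM]
      refine typ_prU_eq hM ?_
      rw [Ultrafilter.coe_pure]
      refine Filter.eventually_pure.2 ?_
      congr 1
      rw [List.map_map, List.map_map]
      conv_rhs => rw [← List.map_id l]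
      exact List.map_congr_left fun a _ => by rcases a with a | a <;> rfl
    have e : (p0.map (Sum.map Sum.inr Sum.inl :
        Fin r ⊕ Fin k → (ℕ ⊕ Fin r) ⊕ (Fin k ⊕ Fin 0))).map
        (Sum.map (Sum.elim id (c j)) id) = (p0.map (Sum.map (c j) id)).map
          (Sum.map id Sum.inl) := by
      rw [List.map_map, List.map_map]
      exact List.map_congr_left fun a _ => by rcases a with a | a <;> rfl
    rw [e, key, key2] at hj2
    exact hj2

/-- **Q(k) for all `k`.** -/
theorem qall (hA : T_UAST) (hC : T_UTHC) (hU : T_USYM) (hS : T_SYMQ) : T_QALL := by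
  intro r C M har hM hsm N H k
  induction k using Nat.strong_induction_on with
  | _ k ih =>
    rcases Nat.eq_zero_or_pos k with rfl | hk
    · exact qq_zero hM H
    · exact ⟨tame_step hA hC hS har hM hsm H hk ih, fin_step hA hC hU hS har hM hsm H hk ih⟩

end Pool.Agent.H71.HCI
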