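import Pool.Agent.H71.HCI.Ty

/-!
# Tame and finite for all `k`
-/

set_option autoImplicit false

namespace Pool.Agent.H71.HCI

open Set Pool.Agent.H75.HCI Pool.Agent.H41.HI Pool.Agent.H41.RLH Pool.Agent.H16.FK

section Sys

variable {C : Type} {M : List ℕ → C} {N : Subgroup (Equiv.Perm ℕ)}

lemma fku_np {H : HSys M N} {I : Type} {V : Ultrafilter (I → ℕ)} (hV : V ∈ FKU H I) : NP V := by
  obtain ⟨B, -, hB⟩ := hV
  intro i a
  filter_upwards [hB (B ++ [a]) (List.subset_append_left _ _)] with D hD h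
  apply hD i
  rw [h]

lemma fku_ij {H : HSys M N} {I : Type} {V : Ultrafilter (I → ℕ)} (hV : V ∈ FKU H I) : Ij V :=
  hV.choose_spec.1

lemma fku_re {H : HSys M N} {I J : Type} {V : Ultrafilter (I → ℕ)} (hV : V ∈ FKU H I) {f : J → I}
    (hf : Function.Injective f) : re V f ∈ FKU H J := by
  obtain ⟨B, h1, hB⟩ := hV
  refine ⟨B, ?_, fun X hX => ?_⟩
  · change ∀ᶠ x in _, _
    rw [ev_re]
    filter_upwards [h1] with x hx
    exact hx.comp hf
  · rw [ev_re]
    filter_upwards [hB X hX] with x hx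
    exact fun j => hx (f j)

end Sys

section Tame

variable {C : Type} {M : List ℕ → C}

/-- `QQ` for the empty tuple -/
lemma qq_zero (hM : FinL M) {N : Subgroup (Equiv.Perm ℕ)} (H : HSys M N) : QQ H 0 := by
  have hV : ∀ V : Ultrafilter (Fin 0 → ℕ), V = pure (fun i => i.elim0) := by
    intro V
    refine Ultrafilter.coe_injective (Filter.ext fun s => ?_)
    have h1 : ∀ᶠ x in (V : Filter (Fin 0 → ℕ)), x = fun i => i.elim0 :=
      Filter.Eventually.of_forall fun x => Subsingleton.elim _ _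
    constructor
    · intro hs
      obtain ⟨x, hx, rfl⟩ := (Filter.Eventually.and (show ∀ᶠ x in (V : Filter _), x ∈ s from hs) h1).exists
      rw [Ultrafilter.coe_pure]
      exact hx
    · intro hs
      rw [Ultrafilter.coe_pure, Filter.mem_pure] at hs
      filter_upwards [h1] with x hx
      rw [hx]
      exact hs
  constructor
  · intro V _ J _ U hU
    rw [hV V]
    funext l
    refine typ_prU_eq hM ?_
    rw [Ultrafilter.coe_pure]
    refine Filter.eventually_pure.2 ?_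
    rw [typ_re hM]
    symm
    refine typ_prU_eq hM ?_
    filter_upwards [typ_spec hM U (l.map (sb fun i => i.elim0))] with y hy
    rw [typ_pure hM, ← hy, List.map_map, List.map_map, List.map_map]
    congr 1
    exact List.map_congr_left fun a _ => by
      rcases a with a | a | a
      · rfl
      · exact a.elim0
      · rfl
  · refine (finite_singleton (typ M (pure fun i : Fin 0 => i.elim0))).subset ?_
    rintro _ ⟨V, -, rfl⟩
    rw [hV V]
    rfl

/-- products of proper parts have finitely many types -/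
lemma wsplit_fin (hM : FinL M) {k : ℕ} (S : Set (Ultrafilter (Fin k → ℕ)))
    (hnp : ∀ V ∈ S, NP V)
    (ht : ∀ V ∈ S, ∀ (m : ℕ) (f : Fin m → Fin k), Function.Injective f → m < k →
      Tame M (re V f))
    (hf : ∀ (m : ℕ) (f : Fin m → Fin k), Function.Injective f → m < k →
      {τ | ∃ V ∈ S, typ M (re V f) = τ}.Finite) :
    {τ | ∃ V ∈ S, WSplit M V ∧ typ M V = τ}.Finite := by
  classical
  -- the data of a splitting
  let D : Type := Σ a : Fin (k + 1), Σ b : Fin (k + 1), Fin a ⊕ Fin b ≃ Fin k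
  haveI : Finite D := inferInstance
  have hpq : ∀ d : D, 0 < (d.1 : ℕ) → 0 < (d.2.1 : ℕ) → (d.1 : ℕ) < k ∧ (d.2.1 : ℕ) < k := by
    intro d h1 h2
    have h3 := Fintype.card_congr d.2.2
    rw [Fintype.card_sum, Fintype.card_fin, Fintype.card_fin, Fintype.card_fin] at h3
    omega
  let F : D → Set (List (ℕ ⊕ Fin k) → C) := fun d =>
    {τ | (0 < (d.1 : ℕ) ∧ 0 < (d.2.1 : ℕ)) ∧ ∃ V ∈ S,
      typ M (re (prU (re V (d.2.2 ∘ Sum.inl)) (re V (d.2.2 ∘ Sum.inr))) d.2.2.symm) = τ}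
  have hF : ∀ d, (F d).Finite := by
    intro d
    by_cases hpos : 0 < (d.1 : ℕ) ∧ 0 < (d.2.1 : ℕ)
    · obtain ⟨ha, hb⟩ := hpq d hpos.1 hpos.2
      have i1 : Function.Injective (d.2.2 ∘ Sum.inl) := d.2.2.injective.comp Sum.inl_injective
      have i2 : Function.Injective (d.2.2 ∘ Sum.inr) := d.2.2.injective.comp Sum.inr_injective
      have f1 := hf _ _ i1 ha
      have f2 := hf _ _ i2 hb
      let G : (List (ℕ ⊕ Fin d.1) → C) × (List (ℕ ⊕ Fin d.2.1) → C) →
          (List (ℕ ⊕ Fin k) → C) := fun q =>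
        if h : ∃ V ∈ S, typ M (re V (d.2.2 ∘ Sum.inl)) = q.1 ∧
            typ M (re V (d.2.2 ∘ Sum.inr)) = q.2 then
          typ M (re (prU (re h.choose (d.2.2 ∘ Sum.inl)) (re h.choose (d.2.2 ∘ Sum.inr)))
            d.2.2.symm)
        else typ M (pure fun _ => 0)
      refine ((f1.prod f2).image G).subset ?_
      rintro τ ⟨-, V, hV, rfl⟩
      refine ⟨(typ M (re V (d.2.2 ∘ Sum.inl)), typ M (re V (d.2.2 ∘ Sum.inr))),
        ⟨⟨V, hV, rfl⟩, ⟨V, hV, rfl⟩⟩, ?_⟩
      have h : ∃ V' ∈ S, typ M (re V' (d.2.2 ∘ Sum.inl)) = typ M (re V (d.2.2 ∘ Sum.inl)) ∧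
          typ M (re V' (d.2.2 ∘ Sum.inr)) = typ M (re V (d.2.2 ∘ Sum.inr)) := ⟨V, hV, rfl, rfl⟩
      change (if h : ∃ V' ∈ S, typ M (re V' (d.2.2 ∘ Sum.inl)) = typ M (re V (d.2.2 ∘ Sum.inl)) ∧
          typ M (re V' (d.2.2 ∘ Sum.inr)) = typ M (re V (d.2.2 ∘ Sum.inr)) then
          typ M (re (prU (re h.choose (d.2.2 ∘ Sum.inl)) (re h.choose (d.2.2 ∘ Sum.inr)))
            d.2.2.symm) else typ M (pure fun _ => 0)) = _
      rw [dif_pos h]
      obtain ⟨hS, e1, e2⟩ := h.choose_spec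
      refine typ_re_congr hM ?_ _
      rw [typ_prU_right hM _ e2]
      exact typ_prU_left hM (np_re (hnp V hV) _) (ht _ hS _ _ i1 ha) (ht V hV _ _ i1 ha) e1
    · refine finite_empty.subset ?_
      rintro τ ⟨h1, -⟩
      exact hpos h1
  refine (finite_iUnion hF).subset ?_
  rintro τ ⟨V, hV, ⟨a, b, e, ha, hb, h⟩, rfl⟩
  have h3 := Fintype.card_congr e
  rw [Fintype.card_sum, Fintype.card_fin, Fintype.card_fin, Fintype.card_fin] at h3
  rw [mem_iUnion]
  exact ⟨⟨⟨a, by omega⟩, ⟨b, by omega⟩, e⟩, ⟨ha, hb⟩, V, hV, h.symm⟩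

end Tame

end Pool.Agent.H71.HCI
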