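import Pool.Agent.H41.HI.Hand

/-!
# The set of infinite induced substructures of a structure is analytic and hereditary
-/

set_option autoImplicit false

open Set

namespace Pool.Agent.H71.HCI

open Pool.Agent.H41.HI.Hand Pool.Agent.H41.HI

variable {r : ℕ} {C : Type}

/-- substructures of substructures -/
lemma subs_trans (x : Structure r C) : ∀ y ∈ Substructures x, Substructures y ⊆ Substructures x := by
  rintro y ⟨f, hf, rfl⟩ _ ⟨g, hg, rfl⟩
  exact ⟨f ∘ g, hf.comp hg, rfl⟩

lemma subs_analytic [MeasurableSpace C] (x : Structure r C) : IsAnalytic (Substructures x) := by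
  right
  have hms : MeasurableSet {f : ℕ → ℕ | Function.Injective f} := by
    have h1 : {f : ℕ → ℕ | Function.Injective f} =
        ⋂ a : ℕ, ⋂ b : ℕ, {f : ℕ → ℕ | f a = f b → a = b} := by
      ext f
      simp only [mem_iInter, mem_ofPred_eq]
      exact ⟨fun h a b hab => h hab, fun h a b hab => h a b hab⟩
    rw [h1]
    refine MeasurableSet.iInter fun a => MeasurableSet.iInter fun b => ?_
    by_cases hab : a = b
    · have : {f : ℕ → ℕ | f a = f b → a = b} = univ := eq_univ_of_forall fun f _ => hab
      rw [this]
      exact MeasurableSet.univ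
    · have : {f : ℕ → ℕ | f a = f b → a = b} = {f : ℕ → ℕ | f a = f b}ᶜ := by
        ext f
        simp only [mem_ofPred_eq, mem_compl_iff]
        exact ⟨fun h h1 => hab (h h1), fun h h1 => absurd h1 h⟩
      rw [this]
      exact (measurableSet_eq_fun (measurable_pi_apply a) (measurable_pi_apply b)).compl
  have hne : {f : ℕ → ℕ | Function.Injective f}.Nonempty := ⟨id, fun _ _ h => h⟩
  have han : MeasureTheory.AnalyticSet {f : ℕ → ℕ | Function.Injective f} :=
    hms.analyticSet
  rw [MeasureTheory.AnalyticSet] at han
  rcases han with h | ⟨φ, hφ, hr⟩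
  · exact absurd h hne.ne_empty
  · refine ⟨fun z a => x (φ z ∘ a), ?_, ?_⟩
    · refine measurable_pi_lambda _ fun a => ?_
      have h2 : Measurable fun z : ℕ → ℕ => φ z ∘ a := by
        refine measurable_pi_lambda _ fun i => ?_
        exact (measurable_pi_apply (a i)).comp hφ.measurable
      exact (measurable_of_countable (fun w : Fin r → ℕ => x w)).comp h2
    · ext y
      constructor
      · rintro ⟨z, rfl⟩
        have : φ z ∈ {f : ℕ → ℕ | Function.Injective f} := hr ▸ ⟨z, rfl⟩
        exact ⟨φ z, this, rfl⟩
      · rintro ⟨f, hf, rfl⟩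
        have : f ∈ range φ := hr ▸ hf
        obtain ⟨z, rfl⟩ := this
        exact ⟨z, rfl⟩

/-- every structure has countably many or perfectly many types of infinite substructures -/
theorem subs_dichotomy (hS : T_STAR r) [MeasurableSpace C] [StandardBorelSpace C]
    (x : Structure r C) :
    CountablyManyTypes (Substructures x) ∨ PerfectlyManyTypes (Substructures x) :=
  hereditary_of_star hS _ (subs_analytic x) (subs_trans x)

end Pool.Agent.H71.HCI
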